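import Mathlib
import Pool.Agent.Lib.MP_cf3da8_lc.Construction

set_option autoImplicit false

open Cardinal Order Set

universe u

namespace Pool.Agent.Lib.MP_cf3da8_lc.Kept.NegativeAnswer

/-- The set `A` has order type `o`: it is order isomorphic to the set of all ordinals below `o`. -/
def HasOrderType {X : Type*} [LinearOrder X] (A : Set X) (o : Ordinal.{u}) : Prop :=
  Nonempty (A ≃o Set.Iio o)

/-- The polarized partition relation `(lam, kap) → (α₀ α₁; β₀ β₁)` with two colours `false`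
(colour `0`) and `true` (colour `1`): for every colouring `c` of the product of `lam` and `kap` (cardinals viewed as sets of ordinals) there are
`A ⊆ lam`, `B ⊆ kap` of order types `α₀`, `β₀` with `c` constantly `false` on `A × B`, or there are
`A ⊆ lam`, `B ⊆ kap` of order types `α₁`, `β₁` with `c` constantly `true` on `A × B`. -/
def Polarized (lam kap : Cardinal.{u}) (α₀ α₁ β₀ β₁ : Ordinal.{u}) : Prop :=
  ∀ c : Set.Iio lam.ord × Set.Iio kap.ord → Bool,
    (∃ (A : Set (Set.Iio lam.ord)) (B : Set (Set.Iio kap.ord)),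
      HasOrderType A α₀ ∧ HasOrderType B β₀ ∧ ∀ a ∈ A, ∀ b ∈ B, c (a, b) = false) ∨
    (∃ (A : Set (Set.Iio lam.ord)) (B : Set (Set.Iio kap.ord)),
      HasOrderType A α₁ ∧ HasOrderType B β₁ ∧ ∀ a ∈ A, ∀ b ∈ B, c (a, b) = true)

/-- `κ` is a measurable cardinal: it is uncountable and a set of size `κ` carries a nonprincipal
`κ`-complete ultrafilter. -/
def IsMeasurable (κ : Cardinal.{u}) : Prop :=
  ℵ₀ < κ ∧ ∃ (X : Type u) (U : Ultrafilter X), #X = κ ∧ (∀ x : X, {x} ∉ U) ∧
    CardinalInterFilter (U : Filter X) κ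

/-- Measurable cardinals are strong limit cardinals. -/
theorem IsMeasurable.two_power_lt {κ μ : Cardinal.{u}} (hκ : IsMeasurable κ) (hμ : μ < κ) :
    2 ^ μ < κ := by
  obtain ⟨_, X, U, hX, hnon, hcomp⟩ := hκ
  by_contra hcon
  have hle : #X ≤ 2 ^ μ := by rw [hX]; exact not_lt.1 hcon
  obtain ⟨M, hM⟩ : ∃ M : Type u, #M = μ := ⟨μ.out, mk_out μ⟩
  obtain ⟨f⟩ : Nonempty (X ↪ Set M) := by
    rw [← Cardinal.le_def, mk_set, hM]; exact hle
  let T : Set M := {m | {x : X | m ∈ f x} ∈ U}
  have hmem : (⋂ m : M, {x : X | (m ∈ f x ↔ m ∈ T)}) ∈ (U : Filter X) := by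
    rw [Filter.cardinal_iInter_mem (c := κ) (by rw [hM]; exact hμ)]
    intro m
    by_cases hm : m ∈ T
    · have : {x : X | (m ∈ f x ↔ m ∈ T)} = {x : X | m ∈ f x} := by
        ext x; simp [hm]
      rw [this]; exact hm
    · have : {x : X | (m ∈ f x ↔ m ∈ T)} = {x : X | m ∈ f x}ᶜ := by
        ext x; simp [hm]
      rw [this]
      exact Ultrafilter.compl_mem_iff_notMem.2 hm
  obtain ⟨x₀, hx₀⟩ := Filter.nonempty_of_mem hmem
  apply hnon x₀
  have hsub : (⋂ m : M, {x : X | (m ∈ f x ↔ m ∈ T)}) ⊆ {x₀} := by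
    intro x hx
    apply f.injective
    ext m
    have h1 := Set.mem_iInter.1 hx m
    have h2 := Set.mem_iInter.1 hx₀ m
    exact h1.trans h2.symm
  exact Filter.mem_of_superset hmem hsub

theorem card_of_hasOrderType {o p : Ordinal.{u}} (A : Set (Set.Iio o)) (h : HasOrderType A p) :
    #((Ordinal.ToType.mk '' A : Set o.ToType)) = p.card := by
  obtain ⟨g⟩ := h
  have h1 := mk_image_eq_lift (Ordinal.ToType.mk : Set.Iio o → o.ToType) A
    (Ordinal.ToType.mk.injective)
  have h2 : #A = #(Set.Iio p) := Cardinal.mk_congr g.toEquiv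
  rw [h2, mk_Iio_ordinal, Cardinal.lift_lift] at h1
  exact Cardinal.lift_injective.{u + 1} h1

/-- The general negative relation: if `lam` is singular, `2 ^ cf lam < lam` and
`2 ^ lam = lam⁺`, then the relation fails for `α = (2 ^ cf lam)⁺`. -/
theorem general {lam : Cardinal.{u}} (hsing : lam.IsSingular) (hpow : 2 ^ lam = succ lam)
    (hcof : 2 ^ lam.ord.cof < lam) :
    ¬ Polarized (succ lam) lam (succ lam).ord (succ ((2 : Cardinal.{u}) ^ lam.ord.cof)).ord
      lam.ord lam.ord := by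
  classical
  obtain ⟨X, hX1, hX2⟩ := Pool.Agent.Lib.MP_cf3da8_lc.construction hsing hpow hcof
  intro hpol
  rcases hpol (fun p =>
    if Ordinal.ToType.mk p.2 ∈ X (Ordinal.ToType.mk p.1) then true else false) with
    ⟨A, B, hA, hB, hc⟩ | ⟨A, B, hA, hB, hc⟩
  · have hAc := card_of_hasOrderType A hA
    have hBc := card_of_hasOrderType B hB
    simp only [card_ord] at hAc hBc
    obtain ⟨b₀, hb₀⟩ := hX1 _ hBc
    have hnot : ¬ (Ordinal.ToType.mk '' A : Set (succ lam).ord.ToType) ⊆ Iic b₀ := by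
      intro hsub
      have h1 := mk_le_mk_of_subset hsub
      have h2 : (Iic b₀ : Set (succ lam).ord.ToType) = insert b₀ (Iio b₀) := by
        ext x; simp [le_iff_eq_or_lt]
      have h3 : #(Iic b₀) < succ lam := by
        rw [h2]
        refine lt_of_le_of_lt mk_insert_le ?_
        exact add_lt_of_lt (hsing.aleph0_le.trans (le_succ _)) (Pool.Agent.Lib.MP_cf3da8_lc.card_Iio_lt b₀)
          (lt_of_lt_of_le one_lt_aleph0 (hsing.aleph0_le.trans (le_succ _)))
      rw [hAc] at h1
      exact absurd h1 (not_le.2 h3)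
    rw [Set.not_subset] at hnot
    obtain ⟨_, ⟨a, ha, rfl⟩, hab⟩ := hnot
    obtain ⟨_, hy1, ⟨b, hb, rfl⟩⟩ := hb₀ _ (not_le.1 hab)
    have := hc a ha b hb
    simp [hy1] at this
  · have hAc := card_of_hasOrderType A hA
    have hBc := card_of_hasOrderType B hB
    simp only [card_ord] at hAc hBc
    have h1 := hX2 _ hAc.ge
    have hsub : (Ordinal.ToType.mk '' B : Set lam.ord.ToType) ⊆
        ⋂ b ∈ (Ordinal.ToType.mk '' A : Set (succ lam).ord.ToType), X b := by
      rintro _ ⟨b, hb, rfl⟩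
      simp only [Set.mem_iInter]
      rintro _ ⟨a, ha, rfl⟩
      have := hc a ha b hb
      by_contra hn
      simp [hn] at this
    have h2 := mk_le_mk_of_subset hsub
    rw [hBc] at h2
    exact absurd (h2.trans_lt h1) (lt_irrefl _)

/-- Negative answer to the question: if `lam` is a singular limit of measurable cardinals and
`2 ^ lam = lam⁺`, then for `α = (2 ^ cf lam)⁺ < lam⁺` the relation
`(lam⁺, lam) → (lam⁺ α; lam lam)` fails. -/
theorem result (lam : Cardinal.{u}) (hsing : lam.IsSingular)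
    (hlim : ∀ μ < lam, ∃ κ, μ < κ ∧ κ < lam ∧ IsMeasurable κ)
    (hpow : 2 ^ lam = succ lam) :
    ∃ α : Ordinal.{u}, α = (succ ((2 : Cardinal.{u}) ^ lam.ord.cof)).ord ∧ α < (succ lam).ord ∧
      ¬ Polarized (succ lam) lam (succ lam).ord α lam.ord lam.ord := by
  have hcof : 2 ^ lam.ord.cof < lam := by
    obtain ⟨κ, h1, h2, h3⟩ := hlim _ hsing.cof_ord_lt
    exact (h3.two_power_lt h1).trans h2
  refine ⟨_, rfl, ?_, general hsing hpow hcof⟩
  rw [ord_lt_ord]
  exact lt_of_le_of_lt (succ_le_of_lt hcof) (lt_succ lam)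

end Pool.Agent.Lib.MP_cf3da8_lc.Kept.NegativeAnswer
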